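import Pool.Agent.H873.RT.Final

/-!
Relation types of sets of points in the projective plane lying on a cubic (MP_2f9c58_ag).

Let `k` be an infinite field and `X` a nonempty finite set of points of `P²` that lies on some cubic
curve. We prove that the relation type of `I_X` is `1` if `I_X` is generated by at most three elements,
and `3` otherwise (then `I_X` has exactly four minimal generators). Eleven points that are not in
generic position always lie on a cubic, so their relation type is `1` or `3`, and both values occur.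

Outline. In suitable coordinates the cubic is monic in `x`, and `I_X` is generated over `k[x, y, z]` by
`F` and three polynomials `G₁, G₂, G₃` of `x`-degree at most two that generate
`I_X ∩ k[y, z][x]_{≤ 2}` over `A = k[y, z]`. Multiplication by `x` gives `x T_i = n_i`, `n = M T + h T₀`.
Modulo these linear relations every relation of the Rees algebra reduces to `A[T₀, …, T₃]`, and there the
ideal of relations of linear type is generated by the entries of `T × n`. This ideal is
`(y, z)`-saturated if some entry of `M`, `h` has a nonzero constant term. Otherwise a linear algebra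
argument with the linear parts shows `n = l₀ T + u n₁ + v^N n₂` with `u, v` a basis of the linear forms
in `y, z`, and the saturation is obtained by adding the single cubic form `T · (n₁ × n₂)`.
-/

set_option autoImplicit false

namespace Pool.Agent.Results.MP_2f9c58_ag.RelationTypesOnCubics

open MvPolynomial Pool.Agent.H873.RT
open scoped LinearAlgebra.Projectivization

/-- `S` is a minimal generating set of the ideal of relations `𝒬` consisting of elements homogeneous in
the variables `T_i` -/
structure MinRelGens {B : Type*} [CommRing B] {m : ℕ} (f : Fin m → B)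
    (S : Set (MvPolynomial (Fin m) B)) : Prop where
  hom : ∀ b ∈ S, ∃ n, b.IsHomogeneous n
  span : Ideal.span S = relIdeal f
  min : ∀ b ∈ S, b ∉ Ideal.span (S \ {b})

/-- `r` is the relation type: it is the least number such that `𝒬` is generated in `T`-degrees at most `r`,
and it is the largest `T`-degree in every minimal set of `T`-homogeneous generators of `𝒬` -/
def HasRelType {B : Type*} [CommRing B] {m : ℕ} (f : Fin m → B) (r : ℕ) : Prop :=
  IsLeast {r | GenIn f r} r ∧ ∀ S, MinRelGens f S → IsGreatest {n | ∃ b ∈ S, b.IsHomogeneous n} r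

theorem hasRelType_of {k : Type*} [Field k] {m : ℕ} (f : Fin m → MvPolynomial (Fin 3) k) (r : ℕ)
    (h : IsLeast {r | GenIn f r} r) (hne : relIdeal f ≠ ⊥) : HasRelType f r :=
  ⟨h, fun S hS => minimal_gens f S hS.hom hS.span hS.min r h hne⟩

theorem cubic {k : Type*} [Field k] [Infinite k] (X : Finset (ℙ k (Fin 3 → k))) (hne : X.Nonempty)
    (hX : ∃ F : MvPolynomial (Fin 3) k, F.IsHomogeneous 3 ∧ F ≠ 0 ∧ ∀ P ∈ X, eval P.rep F = 0)
    (m : ℕ) (f : Fin m → MvPolynomial (Fin 3) k) (hf : MinGens X f) :
    (m ≤ 3 ∧ HasRelType f 1) ∨ (m = 4 ∧ HasRelType f 3) := by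
  obtain ⟨F, hF, hF0, hFX⟩ := hX
  obtain ⟨h1, h2⟩ := main_nf X hne F hF hF0 hFX f hf
  rcases h1 with ⟨h3, h4⟩ | ⟨h3, h4⟩
  · exact Or.inl ⟨h3, hasRelType_of f 1 h4 h2⟩
  · exact Or.inr ⟨h3, hasRelType_of f 3 h4 h2⟩

/-- Relation types of the sets of points on a cubic, and of the sets of eleven points that are not in
generic position. -/
theorem result (k : Type*) [Field k] [Infinite k] :
    -- nonempty finite sets of points on a cubic
    (∀ X : Finset (ℙ k (Fin 3 → k)), X.Nonempty →
      (∃ F : MvPolynomial (Fin 3) k, F.IsHomogeneous 3 ∧ F ≠ 0 ∧ ∀ P ∈ X, eval P.rep F = 0) →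
      ∀ (m : ℕ) (f : Fin m → MvPolynomial (Fin 3) k), MinGens X f →
        (m ≤ 3 ∧ HasRelType f 1) ∨ (m = 4 ∧ HasRelType f 3)) ∧
    -- eleven points not in generic position
    (∀ X : Finset (ℙ k (Fin 3 → k)), X.card = 11 → ¬ GenericPosition X →
      ∀ (m : ℕ) (f : Fin m → MvPolynomial (Fin 3) k), MinGens X f →
        (m ≤ 3 ∧ HasRelType f 1) ∨ (m = 4 ∧ HasRelType f 3)) ∧
    -- the set of relation types of eleven points not in generic position
    {r | ∃ (X : Finset (ℙ k (Fin 3 → k))) (m : ℕ) (f : Fin m → MvPolynomial (Fin 3) k),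
      X.card = 11 ∧ ¬ GenericPosition X ∧ MinGens X f ∧ HasRelType f r} = {1, 3} := by
  have hgen : ∀ X : Finset (ℙ k (Fin 3 → k)), X.card = 11 → ¬ GenericPosition X →
      ∀ (m : ℕ) (f : Fin m → MvPolynomial (Fin 3) k), MinGens X f →
        (m ≤ 3 ∧ HasRelType f 1) ∨ (m = 4 ∧ HasRelType f 3) := by
    intro X hX hg m f hf
    exact cubic X (Finset.card_pos.1 (by omega)) (exists_cubic X hX hg) m f hf
  refine ⟨fun X hne hX m f hf => cubic X hne hX m f hf, hgen, ?_⟩
  apply Set.eq_of_subset_of_subset
  · rintro r ⟨X, m, f, hX, hg, hf, hr⟩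
    rcases hgen X hX hg m f hf with ⟨_, h⟩ | ⟨_, h⟩
    · exact Or.inl (hr.1.unique h.1)
    · exact Or.inr (hr.1.unique h.1)
  · rintro r (rfl | rfl)
    · obtain ⟨X, hX, ⟨F, hF, hF0, hFX⟩, q, hq⟩ := example1 (k := k)
      obtain ⟨m, f, hf⟩ := exists_minGens X
      have hg := not_generic X hX F hF hF0 hFX
      refine ⟨X, m, f, hX, hg, hf, ?_⟩
      have hm : m ≤ 3 := card_le f hf.hom hf.min q (by rw [hf.span, hq])
      rcases hgen X hX hg m f hf with ⟨_, h⟩ | ⟨h3, _⟩
      · exact h
      · omega
    · obtain ⟨X, hX, ⟨F, hF, hF0, hFX⟩, hq⟩ := example3 (k := k)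
      obtain ⟨m, f, hf⟩ := exists_minGens X
      have hg := not_generic X hX F hF hF0 hFX
      refine ⟨X, m, f, hX, hg, hf, ?_⟩
      rcases hgen X hX hg m f hf with ⟨h3, _⟩ | ⟨_, h⟩
      · exfalso
        obtain ⟨q, hq'⟩ := pad h3 f
        rw [hf.span] at hq'
        exact hq q hq'
      · exact h

end Pool.Agent.Results.MP_2f9c58_ag.RelationTypesOnCubics
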